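import Pool.Agent.X269.ET.Comp

/-! # MP_d26ff6_al: local conditions on value groups

Let `C` be the smallest subgroup of `G` which contains every `a` such that the value group `V(a)`
has index at most two, or `V(a) C = G`, or `V(a) V(ag) = G` for some `g ∈ C`. A finite quaternionic
structure is of elementary type if `C` has index at most four, or if for all elements `a`, `b`, `c`
outside `C` which are not rigid the groups `V(a)` and `V(b)` are comparable or their product
contains `V(c)`; more generally, a condition on `a`, `ag`, `ah` modulo `C ⟨g,h⟩` is enough. -/

set_option autoImplicit false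

namespace Pool.Agent.Results.MP_d26ff6_al.ComparableValueGroups

open Pool.Agent.H315R3.ETC Pool.Agent.X269.ET

theorem result (S : QData) (hS : IsQuat S) (hf : Finite S.G) :
    ((largeCore S).index ≤ 4 → Elem S) ∧
    ((∀ a g h : S.G, LocalCondition S a g h) → Elem S) ∧
    (Comparable S → Elem S) :=
  ⟨fun h => elem_of_local hS hf (Or.inl h), fun h => elem_of_local hS hf (Or.inr h),
    fun h => elem_of_local hS hf (Or.inr (local_of_comparable hS h))⟩

end Pool.Agent.Results.MP_d26ff6_al.ComparableValueGroups
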