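import Pool.Agent.X21.ET.Grp

/-! # MP_d26ff6_al: at most 27 quaternions

Let `S` be a finite quaternionic structure whose quaternions lie in a group in which `q` is additive,
and let `V(a)` be the group of the `b` with `q(a,b) = 0`.  If `S` has at most 27 quaternions, or
if no three independent elements of `G` have value groups of index at least eight, or if
`V(a) V(b)` has index at most two in `G` for all `a ≠ b` different from `1`, then `S` is of
elementary type.  More generally it is enough that for every subgroup `W` of order eight of `G`
there are at most 27 quaternions with a slot in `W`, or `W` has a basis at which one of three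
conditions holds. -/

set_option autoImplicit false

namespace Pool.Agent.Results.MP_d26ff6_al.FewQuaternions

open Pool.Agent.H315R3.ETC Pool.Agent.X21.ET

universe v

theorem result (S : QData) (hS : IsQuat S) (hfin : Finite S.G)
    -- the quaternions lie in a group `B` of exponent two in which `q` is additive
    {B : Type v} [AddCommGroup B] (hB : ∀ b : B, b + b = 0) (β : S.G → S.G → B)
    (hmul : ∀ a b c, β a (b * c) = β a b + β a c)
    (hq : ∀ a b c d, β a b = β c d ↔ S.q a b = S.q c d) :
    -- at most 27 quaternions
    ({t : S.Q | ∃ a b, S.q a b = t}.ncard ≤ 27 → Elem S) ∧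
    -- among three independent elements there is one whose value group has index at most four
    ((∀ x y z : S.G, ¬ Dependent x y z → SmallSlot S x ∨ SmallSlot S y ∨ SmallSlot S z) →
      Elem S) ∧
    -- products of two value groups have index at most two
    ((∀ a b : S.G, a ≠ 1 → b ≠ 1 → a ≠ b → IndexTwo S a b) → Elem S) ∧
    -- every subgroup of order eight has at most 27 quaternions or a good basis
    ((∀ x y z : S.G, ¬ Dependent x y z → (slotQ S x y z).ncard ≤ 27 ∨ ∃ x' y' z' : S.G,
      Subgroup.closure ({x', y', z'} : Set S.G) = Subgroup.closure {x, y, z} ∧ Good S x' y' z') →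
      Elem S) := by
  have main := elem_of_good S hS hfin hB β hmul hq
  refine ⟨elem_of_count S hS hfin hB β hmul hq, elem_of_small_slots S hS hfin hB β hmul hq,
    fun h => main fun x y z hd => Or.inr ⟨x, y, z, rfl, Or.inr (Or.inl ⟨?_, ?_⟩)⟩, main⟩
  · unfold Dependent at hd
    push Not at hd
    obtain ⟨h1, h2, h3, h4, h5, h6, h7⟩ := hd
    refine h _ _ h2 (fun hc => h5 ?_) (fun hc => h1 ?_)
    · have := hS.exp2 y
      rw [← this] at hc
      exact mul_right_cancel hc
    · exact right_eq_mul.1 hc
  · unfold Dependent at hd
    push Not at hd
    obtain ⟨h1, h2, h3, h4, h5, h6, h7⟩ := hd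
    refine h _ _ h3 (fun hc => h6 ?_) (fun hc => h1 ?_)
    · have := hS.exp2 z
      rw [← this] at hc
      exact mul_right_cancel hc
    · exact right_eq_mul.1 hc

end Pool.Agent.Results.MP_d26ff6_al.FewQuaternions
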