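import Pool.Agent.X269.ET.FieldPair

/-! # MP_d26ff6_al: products of two value groups of index at most two

Let `S` be a finite quaternionic structure whose quaternions lie in a group, and let `V(a)` be the
group of the `b` with `q(a,b) = 0`. If for all independent `x, y, z` one of the groups `V(x) V(y)`
and `V(x) V(z)` has index at most two in `G`, then `S` is of elementary type. More generally a
condition on pairs of the four elements `x, y, z, xyz` is enough, and it may be combined with the
known conditions on the size of single groups. -/

set_option autoImplicit false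

namespace Pool.Agent.Results.MP_d26ff6_al.ProductsOfIndexTwo

open Pool.Agent.H315R3.ETC Pool.Agent.X269.ET

universe v

theorem result (S : QData) (hS : IsQuat S) (hfin : Finite S.G)
    -- the quaternions lie in a group `B` of exponent two in which `q` is additive
    {B : Type v} [AddCommGroup B] (hB : ∀ b : B, b + b = 0) (β : S.G → S.G → B)
    (hmul : ∀ a b c, β a (b * c) = β a b + β a c)
    (hq : ∀ a b c d, β a b = β c d ↔ S.q a b = S.q c d) :
    ((∀ x y z : S.G, Independent x y z →
      (V S x ⊔ V S y).index ≤ 2 ∨ (V S x ⊔ V S z).index ≤ 2) → Elem S) ∧
    ((∀ x y z : S.G, Independent x y z →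
      Pool.Agent.TH188.ETV.SmallG β x y z ∨ PairG S x y z) → Elem S) :=
  ⟨fun h => elem_of_planes S hS hfin hB β hmul hq fun _ _ _ hi =>
    Or.inr (pairG_of_matching hS h hi), elem_of_planes S hS hfin hB β hmul hq⟩

end Pool.Agent.Results.MP_d26ff6_al.ProductsOfIndexTwo
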