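import Pool.Agent.X269.ET.Fin

/-! # MP_d26ff6_al: retracts of structures of elementary type

The structures of elementary type are closed under retracts: let `i j : G_T → G_(S j)` and
`N j : G_(S j) → G_T` be homomorphisms with `∏ N j (i j a) = a` such that `q(a,b) = 0` implies
`q(i j a, i j b) = 0`, and `q(i j a, y) = 0` implies `q(a, N j y) = 0`. If all `S j` are of
elementary type, then so is `T`. In particular this holds for the image of an idempotent
endomorphism `N` of `G` with `N(V(h)) ⊆ V(h)` for all `h` in the image; this image is always a
quaternionic structure, with `N(-1)` as the distinguished element. -/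

set_option autoImplicit false

namespace Pool.Agent.Results.MP_d26ff6_al.Retracts

open Pool.Agent.H315R3.ETC Pool.Agent.X269.ET

theorem result :
    -- retracts of finitely many structures of elementary type
    (∀ (T : QData) (n : ℕ) (S : Fin n → QData), IsQuat T →
      (∀ j, IsQuat (S j) ∧ Elem (S j)) → IsRetract T S → Finite T.G ∧ Elem T) ∧
    -- images of projections
    (∀ (S : QData) (N : S.G →* S.G), IsQuat S → IsProjection S N →
      IsQuat (image S N) ∧ (Elem S → Elem (image S N))) := by
  have h1 : ∀ (T : QData) (n : ℕ) (S : Fin n → QData), IsQuat T →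
      (∀ j, IsQuat (S j) ∧ Elem (S j)) → IsRetract T S → Finite T.G ∧ Elem T := by
    intro T n S hT hS h
    have hf := finite_of_retract h fun j => elem_finite (hS j).2
    refine ⟨hf, (SymbolExtension.result T hT hf).1.2
      (symbols_of_retract (fun j => (hS j).1) h fun j => ?_)⟩
    exact (SymbolExtension.result (S j) (hS j).1 (elem_finite (hS j).2)).1.1 (hS j).2
  refine ⟨h1, fun S N hS hN => ⟨isQuat_image hS hN, fun hE => ?_⟩⟩
  exact (h1 _ 1 (fun _ => S) (isQuat_image hS hN) (fun _ => ⟨hS, hE⟩) (retract_image hN)).2

end Pool.Agent.Results.MP_d26ff6_al.Retracts
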